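import Pool.Agent.Lib.MP_28303a_al.NT.H7.Tel

/-! # Countable copowers in the homotopy categories; idempotents split -/

set_option autoImplicit false
set_option linter.unusedSectionVars false
set_option linter.unusedVariables false

namespace Pool.Agent.NegK.NT.ER73

universe u v w

open CategoryTheory Limits Pretriangulated Pool.Agent.NegK.NT

/-! ### Idempotents in a triangulated category -/

section

variable {C : Type w} [Category.{v} C] [Preadditive C] [HasZeroObject C] [HasShift C ℤ]
  [∀ n : ℤ, (shiftFunctor C n).Additive] [Pretriangulated C]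

/-- An idempotent of an object with a countable copower splits. -/
theorem split_of_copower (A S : C) (inc : ℕ → (A ⟶ S))
    (hd : ∀ (Y : C) (f : ℕ → (A ⟶ Y)), ∃ g : S ⟶ Y, ∀ n, inc n ≫ g = f n)
    (he : ∀ (Y : C) (f g : S ⟶ Y), (∀ n, inc n ≫ f = inc n ≫ g) → f = g)
    (e : A ⟶ A) (hee : e ≫ e = e) : ∃ (Z : C) (ρ : Retract Z A), ρ.r ≫ ρ.i = e := by
  obtain ⟨d, hd'⟩ := hd S fun n => inc n - e ≫ inc (n + 1)
  obtain ⟨s, hs⟩ := hd S fun n => inc n - ∑ m ∈ Finset.range (n + 1), e ≫ inc m
  obtain ⟨i, hi⟩ := hd A fun _ => e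
  refine H7.splits d s i (inc 0) e ?_ ?_ (hi 0) hee
  · refine he _ _ _ fun n => ?_
    rw [← Category.assoc, hd', Preadditive.sub_comp, Category.assoc, hs, hs,
      Category.comp_id, Preadditive.comp_sub, Preadditive.comp_sum,
      Finset.sum_congr rfl (fun m _ => (Category.assoc e e (inc m)).symm), hee,
      Finset.sum_range_succ _ (n + 1)]
    abel
  · refine he _ _ _ fun n => ?_
    rw [← Category.assoc, hi, Preadditive.comp_sub, Category.comp_id, ← Category.assoc, hs,
      Preadditive.sub_comp, hd', Preadditive.sum_comp]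
    have h1 : ∀ m ∈ Finset.range (n + 1), (e ≫ inc m) ≫ d = e ≫ inc m - e ≫ inc (m + 1) := by
      intro m _
      rw [Category.assoc, hd', Preadditive.comp_sub, ← Category.assoc, hee]
    rw [Finset.sum_congr rfl h1, Finset.sum_range_sub']
    abel

end

/-! ### Countable copowers of complexes -/

section

variable {k : Type u} [Ring k] {Γ : Type u} [Group Γ] {B : Type u} [MulAction Γ B] {P : Pre Γ B}

/-- The map of countable sums. -/
noncomputable def csm {A A' : Loc k P} (f : A ⟶ A') : H7.cs A ⟶ H7.cs A' :=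
  H7.dsc fun n => f ≫ H7.inc A' n

theorem inc_csm {A A' : Loc k P} (f : A ⟶ A') (n : ℕ) :
    H7.inc A n ≫ csm f = f ≫ H7.inc A' n := H7.inc_dsc _ n

/-- The countable sum of copies of a complex. -/
noncomputable def csC (E : CochainComplex (Loc k P) ℤ) : CochainComplex (Loc k P) ℤ where
  X i := H7.cs (E.X i)
  d i j := csm (E.d i j)
  shape i j h := by
    refine H7.cs_ext fun n => ?_
    rw [inc_csm, E.shape i j h, zero_comp, comp_zero]
  d_comp_d' i j l h h' := by
    refine H7.cs_ext fun n => ?_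
    rw [← Category.assoc, inc_csm, Category.assoc, inc_csm, ← Category.assoc, E.d_comp_d,
      zero_comp, comp_zero]

/-- The inclusions. -/
noncomputable def incC (E : CochainComplex (Loc k P) ℤ) (n : ℕ) : E ⟶ csC E where
  f i := H7.inc (E.X i) n
  comm' i j _ := inc_csm (E.d i j) n

theorem csC_ext {E : CochainComplex (Loc k P) ℤ} {i : ℤ} {A : Loc k P} {f g : (csC E).X i ⟶ A}
    (h : ∀ n, (incC E n).f i ≫ f = (incC E n).f i ≫ g) : f = g := by
  exact H7.cs_ext h

/-- Maps of the terms. -/
noncomputable def dsX {E : CochainComplex (Loc k P) ℤ} {i : ℤ} {A : Loc k P}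
    (f : ℕ → (E.X i ⟶ A)) : (csC E).X i ⟶ A := H7.dsc f

theorem inc_dsX {E : CochainComplex (Loc k P) ℤ} {i : ℤ} {A : Loc k P}
    (f : ℕ → (E.X i ⟶ A)) (n : ℕ) : (incC E n).f i ≫ dsX f = f n := by
  exact H7.inc_dsc f n

/-- Maps from the countable sum. -/
noncomputable def dscC {E E' : CochainComplex (Loc k P) ℤ} (f : ℕ → (E ⟶ E')) : csC E ⟶ E' where
  f i := dsX fun n => (f n).f i
  comm' i j _ := by
    refine csC_ext fun n => ?_
    rw [← Category.assoc, inc_dsX, (f n).comm, ← Category.assoc, (incC E n).comm, Category.assoc,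
      inc_dsX]

theorem inc_dscC {E E' : CochainComplex (Loc k P) ℤ} (f : ℕ → (E ⟶ E')) (n : ℕ) :
    incC E n ≫ dscC f = f n := by
  refine HomologicalComplex.hom_ext _ _ fun i => ?_
  rw [HomologicalComplex.comp_f]
  exact inc_dsX (fun n => (f n).f i) n

/-- Homotopies on the countable sum. -/
noncomputable def htpC {E E' : CochainComplex (Loc k P) ℤ} {f g : csC E ⟶ E'}
    (h : ∀ n, Homotopy (incC E n ≫ f) (incC E n ≫ g)) : Homotopy f g where
  hom i j := dsX (E := E) fun n => (h n).hom i j
  zero i j hij := by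
    refine csC_ext fun n => ?_
    rw [inc_dsX (fun n => (h n).hom i j) n, (h n).zero i j hij, comp_zero]
  comm i := by
    refine csC_ext fun n => ?_
    have h0 : (h n).hom = fun i j => (incC E n).f i ≫ dsX (E := E) fun n => (h n).hom i j := by
      funext a b
      exact (inc_dsX (fun n => (h n).hom a b) n).symm
    have h3 := (h n).comm i
    rw [HomologicalComplex.comp_f, HomologicalComplex.comp_f, h0, dNext_comp_left,
      prevD_comp_left] at h3
    rw [h3, Preadditive.comp_add, Preadditive.comp_add]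

/-- The functor to the homotopy category. -/
noncomputable abbrev qm {E E' : CochainComplex (Loc k P) ℤ} (f : E ⟶ E') : qo E ⟶ qo E' :=
  (HomotopyCategory.quotient (Loc k P) (ComplexShape.up ℤ)).map f

theorem kar_qo (E : CochainComplex (Loc k P) ℤ) (e : qo E ⟶ qo E) (he : e ≫ e = e) :
    ∃ (Z : KK k P) (ρ : Retract Z (qo E)), ρ.r ≫ ρ.i = e := by
  have hY : ∀ Y : KK k P, ∃ E' : CochainComplex (Loc k P) ℤ, Y = qo E' := fun Y => ⟨Y.as, rfl⟩
  have hs : ∀ {E₁ E₂ : CochainComplex (Loc k P) ℤ} (f : qo E₁ ⟶ qo E₂), ∃ g : E₁ ⟶ E₂, qm g = f :=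
    fun f => (HomotopyCategory.quotient (Loc k P) (ComplexShape.up ℤ)).map_surjective f
  refine split_of_copower (qo E) (qo (csC E)) (fun n => qm (incC E n)) ?_ ?_ e he
  · intro Y f
    obtain ⟨E', rfl⟩ := hY Y
    choose g hg using fun n => hs (f n)
    refine ⟨qm (dscC g), fun n => ?_⟩
    rw [← hg n, ← inc_dscC g n]
    exact (Functor.map_comp _ _ _).symm
  · intro Y f g h
    obtain ⟨E', rfl⟩ := hY Y
    obtain ⟨f, rfl⟩ := hs f
    obtain ⟨g, rfl⟩ := hs g
    refine HomotopyCategory.eq_of_homotopy _ _ (htpC fun n => ?_)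
    refine HomotopyCategory.homotopyOfEq _ _ ?_
    rw [Functor.map_comp, Functor.map_comp]
    exact h n

/-- Idempotents split in the homotopy category. -/
theorem kar (X : KK k P) (e : X ⟶ X) (he : e ≫ e = e) :
    ∃ (Z : KK k P) (ρ : Retract Z X), ρ.r ≫ ρ.i = e := kar_qo X.as e he

end

end Pool.Agent.NegK.NT.ER73
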