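import Pool.Agent.Lib.MP_28303a_al.NT.ER73.Cop
import Pool.Agent.Lib.MP_28303a_al.NT.H1.Top
import Pool.Agent.Lib.MP_28303a_al.NT.H73.Good
import Pool.Agent.Lib.MP_28303a_al.NT.H85.Evp
import Pool.Agent.Lib.MP_28303a_al.NT.ER.Defs

/-! # Row RR: functors with finite resolutions are closed under retracts -/

set_option autoImplicit false
set_option linter.unusedSectionVars false
set_option linter.unusedVariables false

namespace Pool.Agent.NegK.NT.ER73

universe u v w

open CategoryTheory Limits Pretriangulated Pool.Agent.NegK.NT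

section

variable {C : Type u} [Category.{v} C] [Abelian C] [HasDerivedCategory.{w} C]

open DerivedCategory

/-- Maps of objects concentrated in one degree are determined by the homology. -/
theorem zero_conc (b : ℤ) (A B : DerivedCategory C) [A.IsGE b] [A.IsLE b] [B.IsGE b] [B.IsLE b]
    (f : A ⟶ B) (hf : (homologyFunctor C b).map f = 0) : f = 0 := by
  obtain ⟨Y₁, ⟨e₁⟩⟩ := exists_iso_singleFunctor_obj_of_isGE_of_isLE A b
  obtain ⟨Y₂, ⟨e₂⟩⟩ := exists_iso_singleFunctor_obj_of_isGE_of_isLE B b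
  obtain ⟨ψ, hψ⟩ := (singleFunctor C b).map_surjective (e₁.inv ≫ f ≫ e₂.hom)
  have h1 : (homologyFunctor C b).map ((singleFunctor C b).map ψ) = 0 := by
    rw [hψ, Functor.map_comp, Functor.map_comp, hf, zero_comp, comp_zero]
  have h2 : (homologyFunctor C b).map ((singleFunctor C b).map ψ) ≫
      (singleFunctorCompHomologyFunctorIso C b).hom.app Y₂ =
      (singleFunctorCompHomologyFunctorIso C b).hom.app Y₁ ≫ ψ :=
    (singleFunctorCompHomologyFunctorIso C b).hom.naturality ψ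
  have h3 : ψ = 0 := by
    rw [h1, zero_comp] at h2
    exact (cancel_epi ((singleFunctorCompHomologyFunctorIso C b).hom.app Y₁)).1
      (h2.symm.trans comp_zero.symm)
  have h4 : e₁.inv ≫ f ≫ e₂.hom = 0 := by
    rw [← hψ, h3, Functor.map_zero]
  have h5 : f = e₁.hom ≫ (e₁.inv ≫ f ≫ e₂.hom) ≫ e₂.inv := by simp
  rw [h5, h4, zero_comp, comp_zero]

/-- The same in the homotopy category. -/
theorem zero_ho (b : ℤ) (A B : HomotopyCategory C (ComplexShape.up ℤ))
    (hs : ∀ f : A ⟶ B, Qh.map f = 0 → f = 0)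
    (hA : ∀ n, n ≠ b → IsZero ((HomotopyCategory.homologyFunctor C (ComplexShape.up ℤ) n).obj A))
    (hB : ∀ n, n ≠ b → IsZero ((HomotopyCategory.homologyFunctor C (ComplexShape.up ℤ) n).obj B))
    (f : A ⟶ B) (hf : (HomotopyCategory.homologyFunctor C (ComplexShape.up ℤ) b).map f = 0) :
    f = 0 := by
  have hi : ∀ (n : ℤ) (X : HomotopyCategory C (ComplexShape.up ℤ)),
      IsZero ((HomotopyCategory.homologyFunctor C (ComplexShape.up ℤ) n).obj X) →
        IsZero ((homologyFunctor C n).obj (Qh.obj X)) := fun n X h =>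
    h.of_iso ((homologyFunctorFactorsh C n).app X)
  have h1 : (Qh.obj A).IsLE b := (isLE_iff (Qh.obj A) b).2 fun i h => hi i A (hA i h.ne')
  have h1' : (Qh.obj A).IsGE b := (isGE_iff (Qh.obj A) b).2 fun i h => hi i A (hA i h.ne)
  have h2 : (Qh.obj B).IsLE b := (isLE_iff (Qh.obj B) b).2 fun i h => hi i B (hB i h.ne')
  have h3 : (Qh.obj B).IsGE b := (isGE_iff (Qh.obj B) b).2 fun i h => hi i B (hB i h.ne)
  refine hs f (zero_conc b (Qh.obj A) (Qh.obj B) (Qh.map f) ?_)
  have h5 : (homologyFunctor C b).map (Qh.map f) ≫ (homologyFunctorFactorsh C b).hom.app B =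
      (homologyFunctorFactorsh C b).hom.app A ≫
        (HomotopyCategory.homologyFunctor C (ComplexShape.up ℤ) b).map f :=
    (homologyFunctorFactorsh C b).hom.naturality f
  rw [hf] at h5
  exact (cancel_mono ((homologyFunctorFactorsh C b).hom.app B)).1
    (h5.trans (comp_zero.trans zero_comp.symm))

end

section

variable {k : Type u} [Ring k] {Γ : Type u} [Group Γ] {B : Type u} [MulAction Γ B] {P : Pre Γ B}

attribute [local instance] HasDerivedCategory.standard

theorem inj (hp : ∀ A : Loc k P, Projective (Loc.ev.obj A)) (X : KK k P) (hX : Per X)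
    (L : HomotopyCategory (Fn k P) (ComplexShape.up ℤ)) (f : H1.evK.obj X ⟶ L)
    (hf : DerivedCategory.Qh.map f = 0) : f = 0 := by
  obtain ⟨E, hE, ⟨ρ⟩⟩ := hX
  have := H1.kproj hp E hE
  have h1 : H1.evK.map ρ.r ≫ f = 0 := by
    refine (CochainComplex.IsKProjective.Qh_map_bijective (H1.evC E) L).1 ?_
    have h2 : DerivedCategory.Qh.map (H1.evK.map ρ.r ≫ f) =
        DerivedCategory.Qh.map (H1.evK.map ρ.r) ≫ DerivedCategory.Qh.map f :=
      Functor.map_comp _ _ _
    refine h2.trans ?_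
    rw [hf, comp_zero]
    exact (Functor.map_zero _ _ _).symm
  have h3 : H1.evK.map ρ.i ≫ H1.evK.map ρ.r = 𝟙 _ := by
    rw [← Functor.map_comp, ρ.retract]
    exact CategoryTheory.Functor.map_id _ _
  have h4 : f = (H1.evK.map ρ.i ≫ H1.evK.map ρ.r) ≫ f := by
    rw [h3, Category.id_comp]
  rw [h4, Category.assoc, h1, comp_zero]

/-- Maps of perfect objects concentrated in degree zero are determined by the homology. -/
theorem zero_of_hq (hE : EvpStatement.{u}) (X R : KK k P) (hX : Per X)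
    (hX' : ∀ n, n ≠ 0 → IsZero ((hq k P n).obj X)) (hR' : ∀ n, n ≠ 0 → IsZero ((hq k P n).obj R))
    (f : X ⟶ R) (hf : (hq k P 0).map f = 0) : f = 0 := by
  obtain ⟨h1, h2, hp⟩ := hE k Γ B P
  refine (H1.evK (k := k) (P := P)).map_injective ?_
  rw [Functor.map_zero]
  exact zero_ho 0 (H1.evK.obj X) (H1.evK.obj R) (fun f hf => inj hp X hX _ f hf) hX' hR' _ hf

/-- RR. -/
theorem rr (hE : EvpStatement.{u}) (hTop : TopStatement.{u}) {M N : Fn k P} (ρ : Retract M N)
    (h : Rsl N) : Rsl M := by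
  obtain ⟨R, hR, ⟨e⟩, z⟩ := h
  obtain ⟨f, hf⟩ := hTop k Γ B P R R 0 hR hR (fun n hn => z n (by omega)) z
    (e.hom ≫ ρ.r ≫ ρ.i ≫ e.inv)
  have h1 : f ≫ f = f := by
    rw [← sub_eq_zero]
    refine zero_of_hq hE R R hR z z _ ?_
    rw [Functor.map_sub, Functor.map_comp, hf, sub_eq_zero]
    simp
  obtain ⟨Z, σ, hσ⟩ := kar R f h1
  have h2 : (σ.map (hq k P 0)).r ≫ (σ.map (hq k P 0)).i ≫ e.hom = e.hom ≫ ρ.r ≫ ρ.i := by
    have h3 : (hq k P 0).map σ.r ≫ (hq k P 0).map σ.i = (hq k P 0).map (σ.r ≫ σ.i) :=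
      ((hq k P 0).map_comp _ _).symm
    change (hq k P 0).map σ.r ≫ (hq k P 0).map σ.i ≫ e.hom = _
    rw [← Category.assoc, h3, hσ, hf]
    simp
  exact ⟨Z, per_ret σ hR, NT.H73.iso_of_idem (σ.map (hq k P 0)) e ρ h2, fun n hn =>
    (z n hn).of_mono ((σ.map (hq k P n)).i)⟩

end

/-- RR. -/
theorem rrS : ER.RrStatement.{u} := fun k _ Γ _ B _ P M N ⟨ρ⟩ h =>
  rr H85.evp (H1.top H85.evp) ρ h

end Pool.Agent.NegK.NT.ER73
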